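import Pool.Agent.Q97.UM.Stm4
import Pool.Agent.H345R2.Chi

/-!
# The functional equation near the line (project UM: FE)
-/

set_option autoImplicit false

namespace Pool.Agent.Q277.UM

open Complex Pool.Agent.Q97.UM

theorem t_FE : S_FE := by
  obtain ⟨K, hK, hX⟩ := H345.Chi.XX_size
  refine ⟨Real.exp K, Real.one_le_exp hK.le, fun a t ha0 ha1 ht => ?_⟩
  have ht1 : 1 ≤ t := (Real.one_le_exp hK.le).trans ht
  set s : ℂ := ((1 / 2 + a : ℝ) : ℂ) + t * I with hs
  have hre : s.re = 1 / 2 + a := by simp [hs]
  have him : s.im = t := by simp [hs]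
  have h1 : ∀ n : ℕ, s ≠ -n := by
    intro n h
    have := congrArg Complex.im h
    rw [him] at this
    simp at this
    linarith
  have h2 : s ≠ 1 := by
    intro h
    have := congrArg Complex.im h
    rw [him] at this
    simp at this
    linarith
  have h3 := H345.zeta_fe s h1 h2
  have h4 : (starRingEnd ℂ) (1 - s) = ((1 / 2 - a : ℝ) : ℂ) + t * I := by
    apply Complex.ext
    · rw [Complex.conj_re, Complex.sub_re, hre]
      simp
      ring
    · rw [Complex.conj_im, Complex.sub_im, him]
      simp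
  have h5 : ‖riemannZeta (((1 / 2 - a : ℝ) : ℂ) + t * I)‖ = ‖riemannZeta (1 - s)‖ := by
    rw [← h4, riemannZeta_conj, Complex.norm_conj]
  rw [h5, h3, norm_mul]
  refine mul_le_mul_of_nonneg_right ?_ (norm_nonneg _)
  have h6 := (hX s (by rw [hre]; linarith) (by rw [hre]; linarith) (by rw [him]; exact ht1)).2
  rw [hre, him] at h6
  rwa [show 1 / 2 + a - 1 / 2 = a by ring] at h6

end Pool.Agent.Q277.UM
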