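import Pool.Agent.Split938.J4
import Pool.Agent.Q97.UM.Stm4

/-!
# Subharmonic sup bound on boxes (project UM: SUP)
-/

set_option autoImplicit false

namespace Pool.Agent.Q277.UM.Sup

open Complex MeasureTheory Filter Topology Set Metric

noncomputable section

/-- the square of the distance to `1`, cut off below height `8` -/
def kk (f : ℂ → ℂ) (p : ℝ × ℝ) : ℝ := ‖f (p.1 + ((max p.2 8 : ℝ) : ℂ) * I) - 1‖ ^ 2

theorem kk_cont {f : ℂ → ℂ} (hf : DifferentiableOn ℂ f {s : ℂ | s ≠ 1}) : Continuous (kk f) := by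
  have h1 : Continuous (fun p : ℝ × ℝ => (p.1 : ℂ) + ((max p.2 8 : ℝ) : ℂ) * I) := by fun_prop
  have h2 : ∀ p : ℝ × ℝ, (p.1 : ℂ) + ((max p.2 8 : ℝ) : ℂ) * I ∈ {s : ℂ | s ≠ 1} := by
    intro p h
    have := congrArg Complex.im h
    simp at this
    have h3 := le_max_right p.2 (8 : ℝ)
    linarith
  have h3 : Continuous (fun p : ℝ × ℝ => f ((p.1 : ℂ) + ((max p.2 8 : ℝ) : ℂ) * I)) :=
    hf.continuousOn.comp_continuous h1 h2
  exact ((h3.sub continuous_const).norm).pow 2

theorem kk_nonneg (f : ℂ → ℂ) (p : ℝ × ℝ) : 0 ≤ kk f p := by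
  unfold kk
  positivity

theorem kk_eq (f : ℂ → ℂ) {x u : ℝ} (hu : 8 ≤ u) : kk f (x, u) = ‖f (x + u * I) - 1‖ ^ 2 := by
  unfold kk
  simp only [max_eq_left hu]

/-- the change of variables `(x, y) ↦ x + i (t + y)` -/
def ee (t : ℝ) : ℝ × ℝ ≃ᵐ ℂ :=
  ((MeasurableEquiv.refl ℝ).prodCongr (MeasurableEquiv.addLeft t)).trans
    Complex.measurableEquivRealProd.symm

theorem ee_apply (t : ℝ) (p : ℝ × ℝ) : ee t p = ⟨p.1, t + p.2⟩ := rfl

theorem ee_mp (t : ℝ) : MeasurePreserving (ee t) (volume : Measure (ℝ × ℝ)) volume := by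
  have h1 : MeasurePreserving (Prod.map (id : ℝ → ℝ) (fun y : ℝ => t + y))
      ((volume : Measure ℝ).prod volume) ((volume : Measure ℝ).prod volume) :=
    (MeasurePreserving.id volume).prod (measurePreserving_add_left volume t)
  exact (Complex.volume_preserving_equiv_real_prod.symm).comp h1

/-- the local mean -/
def hh (f : ℂ → ℂ) (S : Set (ℝ × ℝ)) (t : ℝ) : ENNReal :=
  ∫⁻ p in S, ENNReal.ofReal (kk f (p.1, t + p.2))

theorem hh_meas {f : ℂ → ℂ} (hf : DifferentiableOn ℂ f {s : ℂ | s ≠ 1}) (S : Set (ℝ × ℝ)) :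
    Measurable (hh f S) := by
  have h1 : Continuous (fun q : ℝ × (ℝ × ℝ) => kk f (q.2.1, q.1 + q.2.2)) :=
    (kk_cont hf).comp (by fun_prop)
  exact (h1.measurable.ennreal_ofReal).lintegral_prod_right'

/-- the sub-mean value property -/
theorem submean {f : ℂ → ℂ} (hf : DifferentiableOn ℂ f {s : ℂ | s ≠ 1}) {a b w r t : ℝ} {s : ℂ}
    (hr : 0 < r) (ht : 10 ≤ t) (hw : w ≤ 2) (h1 : a + r ≤ s.re) (h2 : s.re + r ≤ b)
    (h3 : |s.im - t| + r ≤ w) :
    ENNReal.ofReal (Real.pi * r ^ 2 * ‖f s - 1‖ ^ 2) ≤ hh f (Icc a b ×ˢ Icc (-w) w) t := by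
  have hsub : ∀ z ∈ ball s r, a ≤ z.re ∧ z.re ≤ b ∧ |z.im - t| ≤ w := by
    intro z hz
    rw [mem_ball, dist_eq_norm] at hz
    have e1 := (Complex.abs_re_le_norm (z - s)).trans hz.le
    have e2 := (Complex.abs_im_le_norm (z - s)).trans hz.le
    rw [Complex.sub_re] at e1
    rw [Complex.sub_im] at e2
    rw [abs_le] at e1
    refine ⟨by linarith [e1.1], by linarith [e1.2], ?_⟩
    have : z.im - t = (z.im - s.im) + (s.im - t) := by ring
    rw [this]
    exact (abs_add_le _ _).trans (by linarith)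
  have him : ∀ z ∈ ball s r, 8 ≤ z.im := by
    intro z hz
    have := (abs_le.1 (hsub z hz).2.2).1
    linarith
  have hH : DifferentiableOn ℂ (fun z => (f z - 1) ^ 2) (ball s r) := by
    have h4 : DifferentiableOn ℂ f (ball s r) := hf.mono fun z hz h => by
      have h5 := him z hz
      rw [h] at h5
      simp at h5
      linarith
    exact (h4.sub_const 1).pow 2
  have h6 := Pool.Agent.Split938.J4.mean_disc' (fun z => (f z - 1) ^ 2) s r hr hH
  rw [norm_pow] at h6
  refine h6.trans ?_
  rw [← lintegral_indicator measurableSet_ball, ← (ee_mp t).lintegral_comp_emb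
    (ee t).measurableEmbedding, hh, ← lintegral_indicator
      (measurableSet_Icc.prod measurableSet_Icc)]
  refine lintegral_mono fun p => ?_
  by_cases hp : ee t p ∈ ball s r
  · have e3 := hsub _ hp
    have e4 := him _ hp
    rw [ee_apply] at e3 e4
    simp only at e3 e4
    have e5 : p ∈ Icc a b ×ˢ Icc (-w) w := by
      refine ⟨⟨e3.1, e3.2.1⟩, ?_⟩
      rw [add_sub_cancel_left, abs_le] at e3
      exact e3.2.2
    have e6 : (ee t p : ℂ) = (p.1 : ℂ) + ((t + p.2 : ℝ) : ℂ) * I := by
      rw [ee_apply]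
      apply Complex.ext <;> simp
    rw [indicator_of_mem hp, indicator_of_mem e5, kk_eq f e4, norm_pow, e6]
  · rw [indicator_of_notMem hp]
    exact bot_le

/-- the weighted mass of the local mean -/
theorem mass {f : ℂ → ℂ} (hf : DifferentiableOn ℂ f {s : ℂ | s ≠ 1}) {V : ℝ → ℝ} {T c D : ℝ}
    (hT : 16 ≤ T) (hc : 0 < c) (hD : 0 ≤ D) (hV : Continuous V) (hV0 : ∀ t, 0 ≤ V t)
    (hRB : Pool.Agent.Q97.UM.RB f V T c D) {a b w : ℝ} (ha : 1 / 2 ≤ a) (hb : b ≤ 3)
    (hw0 : 0 ≤ w) (hw : w ≤ 2) :
    ∫⁻ t in Icc T (2 * T), ENNReal.ofReal (V t) * hh f (Icc a b ×ˢ Icc (-w) w) t ≤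
      ENNReal.ofReal (D * Real.exp (-(c * (a - 1 / 2) * Real.log T)) / (c * Real.log T) *
        (2 * w)) := by
  have hL0 : 0 < Real.log T := Real.log_pos (by linarith)
  have hk := kk_cont hf
  have e1 : ∫⁻ t in Icc T (2 * T), ENNReal.ofReal (V t) * hh f (Icc a b ×ˢ Icc (-w) w) t =
      ∫⁻ p in Icc a b ×ˢ Icc (-w) w, ∫⁻ t in Icc T (2 * T),
        ENNReal.ofReal (V t * kk f (p.1, t + p.2)) := by
    rw [← lintegral_lintegral_swap]
    · refine lintegral_congr fun t => ?_
      rw [hh, ← lintegral_const_mul' _ _ ENNReal.ofReal_ne_top]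
      refine lintegral_congr fun p => ?_
      rw [ENNReal.ofReal_mul (hV0 t)]
    · apply Measurable.aemeasurable
      apply Measurable.ennreal_ofReal
      apply Continuous.measurable
      exact (hV.comp continuous_fst).mul (hk.comp (by fun_prop))
  rw [e1]
  have e2 : ∀ p ∈ Icc a b ×ˢ Icc (-w) w, ∫⁻ t in Icc T (2 * T),
      ENNReal.ofReal (V t * kk f (p.1, t + p.2)) ≤
        ENNReal.ofReal (D * Real.exp (-(c * (p.1 - 1 / 2) * Real.log T))) * 1 := by
    rintro ⟨x, y⟩ ⟨⟨hx1, hx2⟩, hy⟩
    simp only at hx1 hx2 hy ⊢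
    have hy' : |y| ≤ 2 := (abs_le.2 hy).trans hw
    have h3 := hRB x y (by linarith) (by linarith) (by linarith)
    rw [mul_one, ← ofReal_integral_eq_lintegral_ofReal]
    · apply ENNReal.ofReal_le_ofReal
      refine le_trans (le_of_eq ?_) h3
      rw [intervalIntegral.integral_of_le (by linarith), integral_Icc_eq_integral_Ioc]
      refine setIntegral_congr_fun measurableSet_Ioc fun t ht => ?_
      have h4 := (abs_le.1 hy').1
      have h5 := ht.1
      rw [kk_eq f (by linarith)]
    · have : Continuous (fun t : ℝ => V t * kk f (x, t + y)) := hV.mul (hk.comp (by fun_prop))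
      exact this.integrableOn_Icc
    · exact Eventually.of_forall fun t => mul_nonneg (hV0 t) (kk_nonneg _ _)
  refine (setLIntegral_mono' (measurableSet_Icc.prod measurableSet_Icc) e2).trans ?_
  rw [Measure.volume_eq_prod, ← Measure.prod_restrict,
    lintegral_prod_mul (f := fun x : ℝ => ENNReal.ofReal
      (D * Real.exp (-(c * (x - 1 / 2) * Real.log T)))) (g := fun _ : ℝ => (1 : ENNReal))
      (by fun_prop) (by fun_prop)]
  rw [lintegral_const, one_mul, Measure.restrict_apply_univ, Real.volume_Icc]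
  have h6 : ∫⁻ x in Icc a b, ENNReal.ofReal (D * Real.exp (-(c * (x - 1 / 2) * Real.log T))) ≤
      ENNReal.ofReal (D * Real.exp (-(c * (a - 1 / 2) * Real.log T)) / (c * Real.log T)) := by
    rcases le_or_gt a b with hab | hab
    · rw [← ofReal_integral_eq_lintegral_ofReal]
      · apply ENNReal.ofReal_le_ofReal
        rw [integral_Icc_eq_integral_Ioc, ← intervalIntegral.integral_of_le hab,
          intervalIntegral.integral_const_mul]
        have h7 : ∀ x ∈ uIcc a b, HasDerivAt
            (fun x : ℝ => -Real.exp (-(c * (x - 1 / 2) * Real.log T)) / (c * Real.log T))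
            (Real.exp (-(c * (x - 1 / 2) * Real.log T))) x := by
          intro x _
          have h8 : HasDerivAt (fun x : ℝ => -(c * (x - 1 / 2) * Real.log T))
              (-(c * 1 * Real.log T)) x :=
            ((((hasDerivAt_id x).sub_const (1 / 2)).const_mul c).mul_const (Real.log T)).neg
          refine ((h8.exp.neg).div_const (c * Real.log T)).congr_deriv ?_
          field_simp
        rw [intervalIntegral.integral_eq_sub_of_hasDerivAt h7
          (Continuous.intervalIntegrable (by fun_prop) _ _)]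
        have h9 : 0 ≤ Real.exp (-(c * (b - 1 / 2) * Real.log T)) / (c * Real.log T) := by positivity
        rw [mul_div_assoc]
        refine mul_le_mul_of_nonneg_left ?_ hD
        rw [neg_div, neg_div]
        linarith
      · have : Continuous (fun x : ℝ => D * Real.exp (-(c * (x - 1 / 2) * Real.log T))) := by
          fun_prop
        exact this.integrableOn_Icc
      · exact Eventually.of_forall fun x => by positivity
    · rw [Icc_eq_empty (not_le.2 hab), Measure.restrict_empty, lintegral_zero_measure]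
      exact bot_le
  have h10 : w - -w = 2 * w := by ring
  rw [h10]
  refine (mul_le_mul' h6 le_rfl).trans (le_of_eq ?_)
  rw [← ENNReal.ofReal_mul (by positivity)]

theorem t_SUP : Pool.Agent.Q97.UM.S_SUP := by
  intro c hc
  refine ⟨c / 2, 1000 / c, by positivity, by positivity, ?_⟩
  intro T D f V hT hD hf hV hV0 hRB A hA
  set L := Real.log T with hL
  have hL1 : 1 ≤ L := by
    rw [hL, Real.le_log_iff_exp_le (by linarith)]
    have := Real.exp_one_lt_d9
    linarith
  have hL0 : 0 < L := by linarith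
  set r : ℝ := min (A / (2 * L)) (1 / 16) with hr
  have hAL : 0 < A / (2 * L) := by positivity
  have hr0 : 0 < r := lt_min hAL (by norm_num)
  have hr1 : r ≤ A / (2 * L) := min_le_left _ _
  have hr2 : r ≤ 1 / 16 := min_le_right _ _
  set a : ℝ := 1 / 2 + A / (2 * L) with ha
  set w : ℝ := 1 / L + r with hw
  have hL' : 1 / L ≤ 1 := by rw [div_le_one hL0]; exact hL1
  have hL'0 : 0 < 1 / L := by positivity
  set S : Set (ℝ × ℝ) := Icc a (3 / 2) ×ˢ Icc (-w) w with hS
  have hπ := Real.pi_pos
  set τ : ℝ := Real.pi * r ^ 2 * (1 / 4) with hτ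
  have hτ0 : 0 < τ := by positivity
  have hmeas := hh_meas hf S
  refine ⟨{t | ENNReal.ofReal τ < hh f S t}, measurableSet_lt measurable_const hmeas, ?_, ?_⟩
  · have hmass := mass hf hT hc hD hV hV0 hRB (a := a) (b := 3 / 2) (w := w) (by linarith)
      (by norm_num) (by linarith) (by linarith)
    rw [← hS, ← hL] at hmass
    set U : Set ℝ := {t : ℝ | T ≤ t ∧ t ≤ 2 * T ∧ t ∈ {t | ENNReal.ofReal τ < hh f S t}} with hU
    have hUm : MeasurableSet U := by
      have : U = Icc T (2 * T) ∩ {t | ENNReal.ofReal τ < hh f S t} := by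
        ext t
        simp [hU, and_assoc]
      rw [this]
      exact measurableSet_Icc.inter (measurableSet_lt measurable_const hmeas)
    have hUs : U ⊆ Icc T (2 * T) := fun t ht => ⟨ht.1, ht.2.1⟩
    have hVi : IntegrableOn V U := hV.integrableOn_Icc.mono_set hUs
    have h1 : ENNReal.ofReal τ * ENNReal.ofReal (∫ t in U, V t) ≤
        ENNReal.ofReal (D * Real.exp (-(c * (a - 1 / 2) * L)) / (c * L) * (2 * w)) := by
      rw [ofReal_integral_eq_lintegral_ofReal hVi (Eventually.of_forall hV0),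
        ← lintegral_const_mul' _ _ ENNReal.ofReal_ne_top]
      refine le_trans ?_ hmass
      refine (setLIntegral_mono' hUm (g := fun t => ENNReal.ofReal (V t) * hh f S t) ?_).trans
        (lintegral_mono_set hUs)
      intro t ht
      rw [mul_comm]
      gcongr
      exact ht.2.2.le
    rw [← ENNReal.ofReal_mul hτ0.le, ENNReal.ofReal_le_ofReal_iff (by positivity)] at h1
    have h2 : a - 1 / 2 = A / (2 * L) := by rw [ha]; ring
    rw [h2] at h1
    have h3 : c * (A / (2 * L)) * L = c / 2 * A := by field_simp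
    rw [h3] at h1
    have h4 : ∫ t in U, V t ≤ (D * Real.exp (-(c / 2 * A)) / (c * L) * (2 * w)) / τ := by
      rw [le_div_iff₀ hτ0, mul_comm]
      exact h1
    refine h4.trans ?_
    have h5 : w / (r ^ 2 * L) ≤ 272 := by
      rw [div_le_iff₀ (by positivity)]
      rcases le_total (A / (2 * L)) (1 / 16) with h | h
      · have e : r = A / (2 * L) := min_eq_left h
        have e1 : r ^ 2 * L = A ^ 2 / (4 * L) := by rw [e]; field_simp; ring
        have e2 : w = (1 + A / 2) / L := by rw [hw, e]; field_simp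
        rw [e1, e2, div_le_iff₀ hL0]
        have e3 : 272 * (A ^ 2 / (4 * L)) * L = 68 * A ^ 2 := by field_simp; ring
        rw [e3]
        nlinarith
      · have e : r = 1 / 16 := min_eq_right h
        rw [hw, e]
        nlinarith
    have h6 : (D * Real.exp (-(c / 2 * A)) / (c * L) * (2 * w)) / τ =
        (8 / Real.pi) * (w / (r ^ 2 * L)) / c * (D * Real.exp (-(c / 2 * A))) := by
      rw [hτ]
      field_simp
      ring
    rw [h6]
    have h7 : (8 / Real.pi) * (w / (r ^ 2 * L)) / c ≤ 1000 / c := by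
      refine div_le_div_of_nonneg_right ?_ hc.le
      have h8 : 8 / Real.pi ≤ 3 := by
        rw [div_le_iff₀ hπ]
        have := Real.pi_gt_three
        linarith
      have h9 : 0 ≤ w / (r ^ 2 * L) := by positivity
      nlinarith [mul_le_mul h8 h5 h9 (by norm_num)]
    have h10 : 0 ≤ D * Real.exp (-(c / 2 * A)) := by positivity
    calc (8 / Real.pi) * (w / (r ^ 2 * L)) / c * (D * Real.exp (-(c / 2 * A)))
        ≤ 1000 / c * (D * Real.exp (-(c / 2 * A))) := mul_le_mul_of_nonneg_right h7 h10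
      _ = _ := by ring
  · intro t ht1 ht2 hE s hs1 hs2 hs3
    have hE : hh f S t ≤ ENNReal.ofReal τ := not_lt.1 hE
    have h1 := submean hf (a := a) (b := 3 / 2) (w := w) (r := r) (t := t) (s := s) hr0
      (by linarith) (by linarith) (by
        rw [ha]
        have : A / L = A / (2 * L) + A / (2 * L) := by field_simp; ring
        linarith) (by linarith) (by rw [hw]; linarith)
    have h2 := h1.trans hE
    rw [ENNReal.ofReal_le_ofReal_iff hτ0.le, hτ] at h2
    have h3 : 0 < Real.pi * r ^ 2 := by positivity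
    have h4 : ‖f s - 1‖ ^ 2 ≤ 1 / 4 := le_of_mul_le_mul_left h2 h3
    nlinarith [norm_nonneg (f s - 1)]

end

end Pool.Agent.Q277.UM.Sup
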