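import Pool.Agent.Q277.UM.TlA
import Pool.Agent.Q97.UM.Stm4

/-!
# Convexity of mean squares on dyadic ranges (project UM: TL)
-/

set_option autoImplicit false

namespace Pool.Agent.Q277.UM.TL

open Complex MeasureTheory Filter Topology Set Q97.RB

noncomputable section

variable {F : ℂ → ℂ}

/-- the centre of a window -/
def tj (T V : ℝ) (j : ℕ) : ℝ := T + j * V

theorem G_sq {V : ℝ} (c : ℝ) (hV : 0 < V) (x y : ℝ) :
    ‖G F V c (x + y * I)‖ ^ (2 : ℝ) = ‖F (x + y * I)‖ ^ 2 *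
      (Real.exp (2 * (x - 1 / 2) ^ 2 / V ^ 2) * Real.exp (-(2 * ((y - c) / V) ^ 2))) := by
  rw [Real.rpow_two, G_norm F c hV.ne', mul_pow, ← Real.exp_add, ← Real.exp_nat_mul]
  congr 2
  push_cast
  field_simp
  ring

/-- the total mass of the windowed functions on a line -/
theorem sum_LI : ∃ C : ℝ, 1 ≤ C ∧ ∀ T : ℝ, Real.exp 1 ≤ T → ∀ (F : ℂ → ℂ) (A : ℝ),
    Differentiable ℂ F → 0 ≤ A →
    (∀ s : ℂ, 1 / 2 ≤ s.re → s.re ≤ 3 → ‖F s‖ ≤ A * (1 + |s.im|) ^ 4) →
    ∀ x : ℝ, 1 / 2 ≤ x → x ≤ 3 →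
    ∑ j ∈ Finset.range (⌊Real.log T⌋₊ + 1),
      LI (G F (T / Real.log T) (tj T (T / Real.log T) j)) 2 x ≤
      C * ((∫ t in (T / 2)..(3 * T), ‖F (x + t * I)‖ ^ 2) +
        A ^ 2 * Real.exp (-(Real.log T) ^ 2 / 8)) := by
  obtain ⟨K, hK, hw⟩ := weights
  set e₁ : ℝ := Real.exp (25 / 2) with he₁
  have he₁0 : 0 < e₁ := Real.exp_pos _
  refine ⟨1 + e₁ * K + e₁ * (4 ^ 8 * Real.exp 32) * (2 * √(2 * Real.pi)) * Real.exp 162, ?_, ?_⟩
  · have : 0 ≤ e₁ * K + e₁ * (4 ^ 8 * Real.exp 32) * (2 * √(2 * Real.pi)) * Real.exp 162 := by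
      positivity
    linarith
  intro T hT F A hF hA hb x hx1 hx2
  have hT1 : 1 ≤ T := le_trans (Real.one_le_exp (by norm_num)) hT
  have hT0 : 0 < T := by linarith
  set L := Real.log T with hL
  have hL1 : 1 ≤ L := by
    rw [hL, Real.le_log_iff_exp_le hT0]
    exact hT
  have hL0 : 0 < L := by linarith
  have hTL : T = Real.exp L := (Real.exp_log hT0).symm
  have hLT : L ≤ T := by
    rw [hTL]
    have := Real.add_one_le_exp L
    linarith
  set V := T / L with hV
  have hV1 : 1 ≤ V := (one_le_div hL0).2 hLT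
  have hV0 : 0 < V := by linarith
  have hVT : V ≤ T := div_le_self hT0.le hL1
  set J := ⌊L⌋₊ + 1 with hJ
  have hJL : (J : ℝ) ≤ L + 1 := by
    rw [hJ]
    push_cast
    have := Nat.floor_le hL0.le
    linarith
  have hJV : (J : ℝ) * V ≤ 2 * T := by
    calc (J : ℝ) * V ≤ (2 * L) * V := by gcongr; linarith
      _ = 2 * T := by rw [hV]; field_simp
  have htj : ∀ j ∈ Finset.range J, 0 ≤ (j : ℝ) ∧ tj T V j ≤ 2 * T + 0 ∧ T ≤ tj T V j := by
    intro j hj
    rw [Finset.mem_range] at hj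
    have h1 : (j : ℝ) ≤ L := by
      have h2 : j ≤ ⌊L⌋₊ := by omega
      exact (Nat.cast_le.2 h2).trans (Nat.floor_le hL0.le)
    have h3 : (j : ℝ) * V ≤ T := by
      calc (j : ℝ) * V ≤ L * V := by gcongr
        _ = T := by rw [hV]; field_simp
    refine ⟨by positivity, by unfold tj; linarith, ?_⟩
    unfold tj
    have : 0 ≤ (j : ℝ) * V := by positivity
    linarith
  have hint : ∀ j ∈ Finset.range J, Integrable (fun y : ℝ => ‖G F V (tj T V j) (x + y * I)‖ ^ (2 : ℝ)) :=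
    fun j _ => li_int (G_diff hF V _) (by norm_num) (G_gd hA hV0 hb) hx1 hx2
  have e0 : ∑ j ∈ Finset.range J, LI (G F V (tj T V j)) 2 x =
      ∫ y : ℝ, ∑ j ∈ Finset.range J, ‖G F V (tj T V j) (x + y * I)‖ ^ (2 : ℝ) :=
    (integral_finsetSum _ hint).symm
  rw [e0]
  set M : ℝ := A ^ 2 * (e₁ * (4 ^ 8 * Real.exp 32 * T ^ 8)) * Real.exp (-L ^ 2 / 4) with hM
  have hM0 : 0 ≤ M := by positivity
  -- the majorant
  have hFc : Continuous (fun y : ℝ => ‖F (x + y * I)‖ ^ 2) := by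
    have := hF.continuous
    fun_prop
  have hga : ∀ c : ℝ, Integrable (fun y : ℝ => Real.exp (-(1 / (2 * V ^ 2)) * (y - c) ^ 2)) := by
    intro c
    exact (integrable_exp_neg_mul_sq (b := 1 / (2 * V ^ 2)) (by positivity)).comp_sub_right c
  have hgv : ∀ c : ℝ, ∫ y : ℝ, Real.exp (-(1 / (2 * V ^ 2)) * (y - c) ^ 2) = √(2 * Real.pi) * V := by
    intro c
    rw [integral_sub_right_eq_self (fun y : ℝ => Real.exp (-(1 / (2 * V ^ 2)) * y ^ 2)) c,
      integral_gaussian]
    have : Real.pi / (1 / (2 * V ^ 2)) = (2 * Real.pi) * V ^ 2 := by field_simp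
    rw [this, Real.sqrt_mul (by positivity), Real.sqrt_sq hV0.le]
  have hpt : ∀ y : ℝ, ∑ j ∈ Finset.range J, ‖G F V (tj T V j) (x + y * I)‖ ^ (2 : ℝ) ≤
      (Ioc (T / 2) (3 * T)).indicator (fun y : ℝ => e₁ * K * ‖F (x + y * I)‖ ^ 2) y +
        M * ∑ j ∈ Finset.range J, Real.exp (-(1 / (2 * V ^ 2)) * (y - tj T V j) ^ 2) := by
    intro y
    have h1 : ∑ j ∈ Finset.range J, ‖G F V (tj T V j) (x + y * I)‖ ^ (2 : ℝ) =
        ‖F (x + y * I)‖ ^ 2 * (Real.exp (2 * (x - 1 / 2) ^ 2 / V ^ 2) *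
          ∑ j ∈ Finset.range J, Real.exp (-(2 * ((y - tj T V j) / V) ^ 2))) := by
      rw [Finset.mul_sum, Finset.mul_sum]
      exact Finset.sum_congr rfl fun j _ => G_sq _ hV0 x y
    have h2 : Real.exp (2 * (x - 1 / 2) ^ 2 / V ^ 2) ≤ e₁ := by
      rw [he₁, Real.exp_le_exp, div_le_iff₀ (by positivity)]
      nlinarith
    have hS0 : 0 ≤ ∑ j ∈ Finset.range J, Real.exp (-(1 / (2 * V ^ 2)) * (y - tj T V j) ^ 2) :=
      Finset.sum_nonneg fun j _ => (Real.exp_pos _).le
    rw [h1]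
    by_cases hy : y ∈ Ioc (T / 2) (3 * T)
    · rw [indicator_of_mem hy]
      have h3 : ∑ j ∈ Finset.range J, Real.exp (-(2 * ((y - tj T V j) / V) ^ 2)) ≤ K := by
        have := hw J ((y - T) / V)
        refine le_trans (le_of_eq (Finset.sum_congr rfl fun j _ => ?_)) this
        congr 3
        unfold tj
        field_simp
        ring
      calc ‖F (x + y * I)‖ ^ 2 * (Real.exp (2 * (x - 1 / 2) ^ 2 / V ^ 2) *
            ∑ j ∈ Finset.range J, Real.exp (-(2 * ((y - tj T V j) / V) ^ 2)))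
          ≤ ‖F (x + y * I)‖ ^ 2 * (e₁ * K) := by
            refine mul_le_mul_of_nonneg_left ?_ (by positivity)
            exact mul_le_mul h2 h3 (Finset.sum_nonneg fun j _ => (Real.exp_pos _).le) he₁0.le
        _ = e₁ * K * ‖F (x + y * I)‖ ^ 2 := by ring
        _ ≤ _ := by
            have := mul_nonneg hM0 hS0
            linarith
    · rw [indicator_of_notMem hy, zero_add]
      -- far away
      have h4 : ∀ j ∈ Finset.range J, ‖F (x + y * I)‖ ^ 2 * (e₁ * Real.exp (-(2 * ((y - tj T V j) / V) ^ 2))) ≤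
          M * Real.exp (-(1 / (2 * V ^ 2)) * (y - tj T V j) ^ 2) := by
        intro j hj
        obtain ⟨hj0, hj1, hj2⟩ := htj j hj
        set z := (y - tj T V j) / V with hz
        have hyz : y = tj T V j + V * z := by rw [hz]; field_simp; ring
        have h5 : T / 2 ≤ |y - tj T V j| := by
          rw [mem_Ioc, not_and_or, not_lt, not_le] at hy
          rcases hy with hy | hy
          · rw [abs_of_nonpos (by linarith)]
            linarith
          · rw [abs_of_nonneg (by linarith)]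
            linarith
        have h6 : L ^ 2 / 4 ≤ z ^ 2 := by
          have h7 : L / 2 ≤ |z| := by
            rw [hz, abs_div, abs_of_pos hV0, le_div_iff₀ hV0]
            calc L / 2 * V = T / 2 := by rw [hV]; field_simp
              _ ≤ _ := h5
          rw [← sq_abs z]
          nlinarith
        have h8 : ‖F (x + y * I)‖ ≤ A * (1 + |y|) ^ 4 := by
          have := hb (x + y * I) (by simpa using hx1) (by simpa using hx2)
          simpa using this
        have h9 : 1 + |y| ≤ 4 * T * (1 + |z|) := by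
          have h10 : |y| ≤ tj T V j + V * |z| := by
            rw [hyz]
            refine (abs_add_le _ _).trans ?_
            rw [abs_mul, abs_of_pos hV0, abs_of_nonneg (by linarith)]
          have h11 : V * |z| ≤ T * |z| := by gcongr
          nlinarith [abs_nonneg z]
        have h12 : (1 + |z|) ^ 8 ≤ Real.exp 32 * Real.exp (z ^ 2 / 2) := by
          have h13 : 1 + |z| ≤ Real.exp |z| := by
            have := Real.add_one_le_exp |z|
            linarith
          calc (1 + |z|) ^ 8 ≤ Real.exp |z| ^ 8 := pow_le_pow_left₀ (by positivity) h13 8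
            _ = Real.exp (8 * |z|) := by rw [← Real.exp_nat_mul]; norm_num
            _ ≤ Real.exp (32 + z ^ 2 / 2) := by
                rw [Real.exp_le_exp, ← sq_abs z]
                nlinarith [sq_nonneg (|z| - 8)]
            _ = _ := Real.exp_add _ _
        have h14 : ‖F (x + y * I)‖ ^ 2 ≤ A ^ 2 * (4 ^ 8 * T ^ 8 * (Real.exp 32 * Real.exp (z ^ 2 / 2))) := by
          calc ‖F (x + y * I)‖ ^ 2 ≤ (A * (1 + |y|) ^ 4) ^ 2 :=
                pow_le_pow_left₀ (norm_nonneg _) h8 2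
            _ = A ^ 2 * (1 + |y|) ^ 8 := by ring
            _ ≤ A ^ 2 * (4 * T * (1 + |z|)) ^ 8 := by gcongr
            _ = A ^ 2 * (4 ^ 8 * T ^ 8 * (1 + |z|) ^ 8) := by ring
            _ ≤ _ := by gcongr
        have h15 : -(1 / (2 * V ^ 2)) * (y - tj T V j) ^ 2 = -(z ^ 2 / 2) := by
          rw [hz]
          field_simp
        rw [h15]
        calc ‖F (x + y * I)‖ ^ 2 * (e₁ * Real.exp (-(2 * z ^ 2)))
            ≤ (A ^ 2 * (4 ^ 8 * T ^ 8 * (Real.exp 32 * Real.exp (z ^ 2 / 2)))) *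
              (e₁ * Real.exp (-(2 * z ^ 2))) := by gcongr
          _ = (A ^ 2 * (e₁ * (4 ^ 8 * Real.exp 32 * T ^ 8))) * Real.exp (z ^ 2 / 2 + -(2 * z ^ 2)) := by
              rw [Real.exp_add]; ring
          _ ≤ (A ^ 2 * (e₁ * (4 ^ 8 * Real.exp 32 * T ^ 8))) * Real.exp (-L ^ 2 / 4 + -(z ^ 2 / 2)) := by
              refine mul_le_mul_of_nonneg_left (Real.exp_le_exp.2 ?_) (by positivity)
              linarith
          _ = _ := by rw [Real.exp_add, hM]; ring
      calc ‖F (x + y * I)‖ ^ 2 * (Real.exp (2 * (x - 1 / 2) ^ 2 / V ^ 2) *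
            ∑ j ∈ Finset.range J, Real.exp (-(2 * ((y - tj T V j) / V) ^ 2)))
          ≤ ‖F (x + y * I)‖ ^ 2 * (e₁ *
            ∑ j ∈ Finset.range J, Real.exp (-(2 * ((y - tj T V j) / V) ^ 2))) := by
            refine mul_le_mul_of_nonneg_left ?_ (by positivity)
            exact mul_le_mul_of_nonneg_right h2 (Finset.sum_nonneg fun j _ => (Real.exp_pos _).le)
        _ = ∑ j ∈ Finset.range J, ‖F (x + y * I)‖ ^ 2 * (e₁ * Real.exp (-(2 * ((y - tj T V j) / V) ^ 2))) := by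
            rw [Finset.mul_sum, Finset.mul_sum]
        _ ≤ ∑ j ∈ Finset.range J, M * Real.exp (-(1 / (2 * V ^ 2)) * (y - tj T V j) ^ 2) :=
            Finset.sum_le_sum h4
        _ = _ := by rw [Finset.mul_sum]
  have hi1 : Integrable ((Ioc (T / 2) (3 * T)).indicator (fun y : ℝ => e₁ * K * ‖F (x + y * I)‖ ^ 2)) := by
    rw [integrable_indicator_iff measurableSet_Ioc]
    exact ((continuous_const.mul hFc).integrableOn_Icc).mono_set Ioc_subset_Icc_self
  have hi2 : Integrable (fun y : ℝ => M * ∑ j ∈ Finset.range J,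
      Real.exp (-(1 / (2 * V ^ 2)) * (y - tj T V j) ^ 2)) :=
    (integrable_finsetSum _ fun j _ => hga _).const_mul M
  have hfin : ∫ y : ℝ, ∑ j ∈ Finset.range J, ‖G F V (tj T V j) (x + y * I)‖ ^ (2 : ℝ) ≤
      e₁ * K * (∫ t in (T / 2)..(3 * T), ‖F (x + t * I)‖ ^ 2) + M * (J * (√(2 * Real.pi) * V)) := by
    refine (integral_mono (integrable_finsetSum _ hint) (hi1.add hi2) hpt).trans (le_of_eq ?_)
    rw [integral_add' hi1 hi2, integral_indicator measurableSet_Ioc, integral_const_mul,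
      integral_const_mul, integral_finsetSum _ (fun j _ => hga _),
      intervalIntegral.integral_of_le (by linarith)]
    congr 2
    rw [Finset.sum_congr rfl (fun j _ => hgv _), Finset.sum_const, Finset.card_range, nsmul_eq_mul]
  refine hfin.trans ?_
  have hI0 : 0 ≤ ∫ t in (T / 2)..(3 * T), ‖F (x + t * I)‖ ^ 2 :=
    intervalIntegral.integral_nonneg (by linarith) fun t _ => by positivity
  have hE0 : 0 ≤ A ^ 2 * Real.exp (-L ^ 2 / 8) := by positivity
  have hlast : M * (J * (√(2 * Real.pi) * V)) ≤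
      e₁ * (4 ^ 8 * Real.exp 32) * (2 * √(2 * Real.pi)) * Real.exp 162 *
        (A ^ 2 * Real.exp (-L ^ 2 / 8)) := by
    calc M * (J * (√(2 * Real.pi) * V)) = M * √(2 * Real.pi) * (J * V) := by ring
      _ ≤ M * √(2 * Real.pi) * (2 * T) := by gcongr
      _ = e₁ * (4 ^ 8 * Real.exp 32) * (2 * √(2 * Real.pi)) *
          (A ^ 2 * (T ^ 9 * Real.exp (-L ^ 2 / 4))) := by rw [hM]; ring
      _ ≤ e₁ * (4 ^ 8 * Real.exp 32) * (2 * √(2 * Real.pi)) *
          (A ^ 2 * (Real.exp 162 * Real.exp (-L ^ 2 / 8))) := by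
          refine mul_le_mul_of_nonneg_left (mul_le_mul_of_nonneg_left ?_ (by positivity))
            (by positivity)
          have h16 : T ^ 9 = Real.exp (9 * L) := by
            rw [hTL, ← Real.exp_nat_mul]
            norm_num
          rw [h16, ← Real.exp_add, ← Real.exp_add, Real.exp_le_exp]
          nlinarith [sq_nonneg (L - 36)]
      _ = _ := by ring
  have hc1 : 0 ≤ e₁ * K := by positivity
  have hc2 : 0 ≤ e₁ * (4 ^ 8 * Real.exp 32) * (2 * √(2 * Real.pi)) * Real.exp 162 := by positivity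
  generalize e₁ * (4 ^ 8 * Real.exp 32) * (2 * √(2 * Real.pi)) * Real.exp 162 = c₂ at *
  generalize (∫ t in (T / 2)..(3 * T), ‖F (x + t * I)‖ ^ 2) = I₀ at *
  generalize A ^ 2 * Real.exp (-L ^ 2 / 8) = E₀ at *
  nlinarith

/-- one window -/
theorem window {σ V : ℝ} (hF : Differentiable ℂ F) (hV : 0 < V) {A : ℝ} (hA : 0 ≤ A)
    (hb : ∀ s : ℂ, 1 / 2 ≤ s.re → s.re ≤ 3 → ‖F s‖ ≤ A * (1 + |s.im|) ^ 4) (h1 : 1 / 2 ≤ σ)
    (h2 : σ ≤ 3) (c : ℝ) : ∫ t in c..(c + V), ‖F (σ + t * I)‖ ^ 2 ≤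
      Real.exp 2 * LI (G F V c) 2 σ := by
  have hi := li_int (G_diff hF V c) (β := 2) (by norm_num) (G_gd hA hV hb) h1 h2
  have hFc : Continuous (fun y : ℝ => ‖F (σ + y * I)‖ ^ 2) := by
    have := hF.continuous
    fun_prop
  have h3 : ∫ t in c..(c + V), ‖F (σ + t * I)‖ ^ 2 ≤
      ∫ t in c..(c + V), Real.exp 2 * ‖G F V c (σ + t * I)‖ ^ (2 : ℝ) := by
    refine intervalIntegral.integral_mono_on (by linarith) (hFc.intervalIntegrable _ _)
      ((continuous_const.mul (li_cont (G_diff hF V c) (β := 2) (by norm_num) σ)).intervalIntegrable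
        _ _) fun t ht => ?_
    rw [G_sq c hV]
    have h4 : ((t - c) / V) ^ 2 ≤ 1 := by
      rw [div_pow, div_le_one (by positivity)]
      have := ht.1
      have := ht.2
      nlinarith
    have h5 : 1 ≤ Real.exp 2 * (Real.exp (2 * (σ - 1 / 2) ^ 2 / V ^ 2) *
        Real.exp (-(2 * ((t - c) / V) ^ 2))) := by
      rw [← Real.exp_add, ← Real.exp_add]
      apply Real.one_le_exp
      have : 0 ≤ 2 * (σ - 1 / 2) ^ 2 / V ^ 2 := by positivity
      linarith
    calc ‖F (σ + t * I)‖ ^ 2 = ‖F (σ + t * I)‖ ^ 2 * 1 := (mul_one _).symm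
      _ ≤ ‖F (σ + t * I)‖ ^ 2 * (Real.exp 2 * (Real.exp (2 * (σ - 1 / 2) ^ 2 / V ^ 2) *
        Real.exp (-(2 * ((t - c) / V) ^ 2)))) := by gcongr
      _ = _ := by ring
  refine h3.trans ?_
  rw [intervalIntegral.integral_const_mul, intervalIntegral.integral_of_le (by linarith)]
  refine mul_le_mul_of_nonneg_left ?_ (Real.exp_pos _).le
  exact setIntegral_le_integral hi (Eventually.of_forall fun y => by positivity)

theorem t_TL : Pool.Agent.Q97.UM.S_TL := by
  obtain ⟨C₁, hC₁, hsum⟩ := sum_LI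
  have he2 : 1 ≤ Real.exp 2 * C₁ := by
    have := Real.one_le_exp (x := 2) (by norm_num)
    nlinarith
  refine ⟨Real.exp 1 + 8 + Real.exp 2 * C₁, by
    have := Real.exp_pos 1
    linarith, ?_⟩
  set C : ℝ := Real.exp 1 + 8 + Real.exp 2 * C₁ with hC
  have hC8 : 8 ≤ C := by
    have := Real.exp_pos 1
    linarith
  intro T hT F A hF hA hb σ h1 h2
  have hT' : Real.exp 1 ≤ T := by linarith
  have hT1 : 1 ≤ T := le_trans (Real.one_le_exp (by norm_num)) hT'
  have hT0 : 0 < T := by linarith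
  set θ : ℝ := (σ - 1 / 2) / (5 / 2) with hθ
  have hθ0 : 0 ≤ θ := by
    rw [hθ]
    apply div_nonneg <;> linarith
  have hθ1 : θ ≤ 1 := by
    rw [hθ, div_le_one (by norm_num)]
    linarith
  have hσ : σ = (1 - θ) * (1 / 2) + θ * 3 := by rw [hθ]; ring
  set L := Real.log T with hL
  have hL1 : 1 ≤ L := by
    rw [hL, Real.le_log_iff_exp_le hT0]
    exact hT'
  have hL0 : 0 < L := by linarith
  set V := T / L with hV
  have hV0 : 0 < V := by positivity
  set J := ⌊L⌋₊ + 1 with hJ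
  have hI : ∀ x : ℝ, 0 ≤ ∫ t in (T / 2)..(3 * T), ‖F (x + t * I)‖ ^ 2 := fun x =>
    intervalIntegral.integral_nonneg (by linarith) fun t _ => by positivity
  have hE : A ^ 2 * Real.exp (-L ^ 2 / 8) ≤ A ^ 2 * Real.exp (-L ^ 2 / C) := by
    refine mul_le_mul_of_nonneg_left (Real.exp_le_exp.2 ?_) (by positivity)
    rw [neg_div, neg_div, neg_le_neg_iff]
    gcongr
  have hE0 : 0 ≤ A ^ 2 * Real.exp (-L ^ 2 / 8) := by positivity
  by_cases hF0 : F = 0
  · have : ∫ t in T..(2 * T), ‖F (σ + t * I)‖ ^ 2 = 0 := by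
      rw [hF0]
      simp
    rw [this]
    have e1 := hI (1 / 2)
    have e2 := hI 3
    push_cast at e1 e2
    have e3 : 0 ≤ A ^ 2 * Real.exp (-L ^ 2 / C) := by positivity
    have hC0 : 0 ≤ C := by linarith
    exact mul_nonneg (mul_nonneg hC0 (Real.rpow_nonneg (by linarith) _))
      (Real.rpow_nonneg (by linarith) _)
  -- the sums over the two lines
  have s1 := hsum T hT' F A hF hA hb (1 / 2) le_rfl (by norm_num)
  have s2 := hsum T hT' F A hF hA hb 3 (by norm_num) le_rfl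
  rw [← hL, ← hV, ← hJ] at s1 s2
  have p1 : ∀ j ∈ Finset.range J, 0 < LI (G F V (tj T V j)) 2 (1 / 2) := fun j _ =>
    LI_pos hF hF0 hA hV0 hb le_rfl (by norm_num)
  have p2 : ∀ j ∈ Finset.range J, 0 < LI (G F V (tj T V j)) 2 3 := fun j _ =>
    LI_pos hF hF0 hA hV0 hb (by norm_num) le_rfl
  have hJne : (Finset.range J).Nonempty := ⟨0, by rw [Finset.mem_range]; omega⟩
  have q1 := Finset.sum_pos p1 hJne
  have q2 := Finset.sum_pos p2 hJne
  have e3 := holder (Finset.range J) (fun j hj => (p1 j hj).le) (fun j hj => (p2 j hj).le) s1 s2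
    (lt_of_lt_of_le q1 s1) (lt_of_lt_of_le q2 s2) hθ0 hθ1
  have e4 : ∑ j ∈ Finset.range J, LI (G F V (tj T V j)) 2 σ ≤
      ∑ j ∈ Finset.range J, LI (G F V (tj T V j)) 2 (1 / 2) ^ (1 - θ) *
        LI (G F V (tj T V j)) 2 3 ^ θ := by
    refine Finset.sum_le_sum fun j hj => ?_
    have := LI_logconv (G_diff hF V (tj T V j)) (β := 2) (by norm_num)
      (G_gd hA hV0 hb) (x₁ := 1 / 2) (x₂ := 3) (θ := θ) le_rfl (by norm_num) le_rfl hθ0 hθ1
      (p1 j hj) (p2 j hj)
    rwa [← hσ] at this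
  -- the windows cover the range
  have hFc : Continuous (fun y : ℝ => ‖F (σ + y * I)‖ ^ 2) := by
    have := hF.continuous
    fun_prop
  have e5 : ∫ t in T..(2 * T), ‖F (σ + t * I)‖ ^ 2 ≤
      ∑ j ∈ Finset.range J, Real.exp 2 * LI (G F V (tj T V j)) 2 σ := by
    have hcov : 2 * T ≤ T + J * V := by
      have h6 : L ≤ J := by
        rw [hJ]
        push_cast
        exact (Nat.lt_floor_add_one L).le
      have h7 : T ≤ J * V := by
        calc T = L * V := by rw [hV]; field_simp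
          _ ≤ J * V := by gcongr
      linarith
    have e6 : ∫ t in T..(2 * T), ‖F (σ + t * I)‖ ^ 2 ≤ ∫ t in T..(T + J * V), ‖F (σ + t * I)‖ ^ 2 := by
      refine intervalIntegral.integral_mono_interval le_rfl (by linarith) hcov
        (Eventually.of_forall fun t => by positivity) (hFc.intervalIntegrable _ _)
    refine e6.trans ?_
    have e7 := intervalIntegral.sum_integral_adjacent_intervals (f := fun t : ℝ => ‖F (σ + t * I)‖ ^ 2)
      (μ := volume) (a := fun j : ℕ => tj T V j) (n := J) (fun k _ => hFc.intervalIntegrable _ _)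
    have e8 : tj T V 0 = T := by simp [tj]
    simp only [e8] at e7
    change _ = ∫ t in T..(T + J * V), _ at e7
    rw [← e7]
    refine Finset.sum_le_sum fun j _ => ?_
    have e9 : tj T V (j + 1) = tj T V j + V := by
      unfold tj
      push_cast
      ring
    rw [e9]
    exact window hF hV0 hA hb h1 h2 _
  rw [← Finset.mul_sum] at e5
  refine e5.trans ?_
  have e10 := e4.trans e3
  push_cast at e10
  -- separate the constant
  set X : ℝ := (∫ t in (T / 2)..(3 * T), ‖F (1 / 2 + t * I)‖ ^ 2) + A ^ 2 * Real.exp (-L ^ 2 / 8) with hX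
  set X' : ℝ := (∫ t in (T / 2)..(3 * T), ‖F (3 + t * I)‖ ^ 2) + A ^ 2 * Real.exp (-L ^ 2 / 8) with hX'
  have i1 := hI (1 / 2)
  have i2 := hI 3
  push_cast at i1 i2
  have hX0 : 0 ≤ X := by linarith
  have hX0' : 0 ≤ X' := by linarith
  have hC₁0 : 0 < C₁ := by linarith
  have e11 : (C₁ * X) ^ (1 - θ) * (C₁ * X') ^ θ = C₁ * (X ^ (1 - θ) * X' ^ θ) := by
    rw [Real.mul_rpow hC₁0.le hX0, Real.mul_rpow hC₁0.le hX0']
    have : C₁ ^ (1 - θ) * C₁ ^ θ = C₁ := by
      rw [← Real.rpow_add hC₁0]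
      simp
    calc C₁ ^ (1 - θ) * X ^ (1 - θ) * (C₁ ^ θ * X' ^ θ)
        = (C₁ ^ (1 - θ) * C₁ ^ θ) * (X ^ (1 - θ) * X' ^ θ) := by ring
      _ = _ := by rw [this]
  rw [e11] at e10
  have e12 : X ^ (1 - θ) * X' ^ θ ≤
      ((∫ t in (T / 2)..(3 * T), ‖F (1 / 2 + t * I)‖ ^ 2) + A ^ 2 * Real.exp (-L ^ 2 / C)) ^ (1 - θ) *
      ((∫ t in (T / 2)..(3 * T), ‖F (3 + t * I)‖ ^ 2) + A ^ 2 * Real.exp (-L ^ 2 / C)) ^ θ := by
    refine mul_le_mul (Real.rpow_le_rpow hX0 (by linarith) (by linarith))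
      (Real.rpow_le_rpow hX0' (by linarith) hθ0) (Real.rpow_nonneg hX0' _)
      (Real.rpow_nonneg (by linarith) _)
  have e13 : 0 ≤ X ^ (1 - θ) * X' ^ θ := by positivity
  calc Real.exp 2 * ∑ j ∈ Finset.range J, LI (G F V (tj T V j)) 2 σ
      ≤ Real.exp 2 * (C₁ * (X ^ (1 - θ) * X' ^ θ)) := by gcongr
    _ = (Real.exp 2 * C₁) * (X ^ (1 - θ) * X' ^ θ) := by ring
    _ ≤ C * (X ^ (1 - θ) * X' ^ θ) := by
        refine mul_le_mul_of_nonneg_right ?_ e13
        have := Real.exp_pos 1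
        linarith
    _ ≤ _ := by
        rw [mul_assoc]
        exact mul_le_mul_of_nonneg_left e12 (by linarith)

end

end Pool.Agent.Q277.UM.TL
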