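import Pool.Agent.Q97.RB.Gab

/-!
# Gaussian windows on vertical lines (project UM: TL, part 1)
-/

set_option autoImplicit false

namespace Pool.Agent.Q277.UM.TL

open Complex MeasureTheory Filter Topology Set Q97.RB

noncomputable section

/-- the windowed function -/
def G (F : ℂ → ℂ) (V c : ℝ) (s : ℂ) : ℂ := F s * cexp (((s - (1 / 2 + c * I)) / V) ^ 2)

variable {F : ℂ → ℂ}

theorem G_norm (F : ℂ → ℂ) {V : ℝ} (c : ℝ) (hV : V ≠ 0) (x y : ℝ) :
    ‖G F V c (x + y * I)‖ = ‖F (x + y * I)‖ * Real.exp (((x - 1 / 2) ^ 2 - (y - c) ^ 2) / V ^ 2) := by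
  rw [G, norm_mul, Complex.norm_exp]
  congr 2
  have e : (((x : ℂ) + y * I - (1 / 2 + c * I)) / V) =
      (((x - 1 / 2) / V : ℝ) : ℂ) + (((y - c) / V : ℝ) : ℂ) * I := by
    push_cast
    ring
  rw [e, sq, Complex.mul_re]
  simp
  field_simp

theorem G_diff (hF : Differentiable ℂ F) (V c : ℝ) : Differentiable ℂ (G F V c) := by
  unfold G
  exact hF.mul (by fun_prop)

theorem G_gd {A V c : ℝ} (hA : 0 ≤ A) (hV : 0 < V)
    (hb : ∀ s : ℂ, 1 / 2 ≤ s.re → s.re ≤ 3 → ‖F s‖ ≤ A * (1 + |s.im|) ^ 4) :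
    Gd (G F V c) (1 / 2) 3 := by
  have hV2 : 0 < V ^ 2 := by positivity
  refine ⟨A * Real.exp (16 * V ^ 2 + ((5 / 2) ^ 2 + c ^ 2) / V ^ 2), 1 / (4 * V ^ 2), by positivity,
    by positivity, fun x y h1 h2 => ?_⟩
  rw [G_norm F c hV.ne']
  have e1 := hb (x + y * I) (by simpa using h1) (by simpa using h2)
  have e2 : ((x : ℂ) + y * I).im = y := by simp
  rw [e2] at e1
  have e3 : (1 + |y|) ^ 4 ≤ Real.exp (4 * |y|) := by
    have h3 : 1 + |y| ≤ Real.exp |y| := by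
      have := Real.add_one_le_exp |y|
      linarith
    calc (1 + |y|) ^ 4 ≤ Real.exp |y| ^ 4 := pow_le_pow_left₀ (by positivity) h3 4
      _ = Real.exp (4 * |y|) := by rw [← Real.exp_nat_mul]; norm_num
  calc ‖F (x + y * I)‖ * Real.exp (((x - 1 / 2) ^ 2 - (y - c) ^ 2) / V ^ 2)
      ≤ (A * Real.exp (4 * |y|)) * Real.exp (((x - 1 / 2) ^ 2 - (y - c) ^ 2) / V ^ 2) := by
        refine mul_le_mul_of_nonneg_right (e1.trans ?_) (Real.exp_pos _).le
        exact mul_le_mul_of_nonneg_left e3 hA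
    _ = A * Real.exp (4 * |y| + ((x - 1 / 2) ^ 2 - (y - c) ^ 2) / V ^ 2) := by
        rw [mul_assoc, ← Real.exp_add]
    _ ≤ A * Real.exp (16 * V ^ 2 + ((5 / 2) ^ 2 + c ^ 2) / V ^ 2 + -(1 / (4 * V ^ 2)) * y ^ 2) := by
        refine mul_le_mul_of_nonneg_left (Real.exp_le_exp.2 ?_) hA
        have h4 : (x - 1 / 2) ^ 2 ≤ (5 / 2) ^ 2 := by nlinarith
        have h5 : y ^ 2 / 2 - c ^ 2 ≤ (y - c) ^ 2 := by nlinarith [sq_nonneg (y - 2 * c)]
        have h6 : ((x - 1 / 2) ^ 2 - (y - c) ^ 2) / V ^ 2 ≤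
            ((5 / 2) ^ 2 + c ^ 2) / V ^ 2 - y ^ 2 / (2 * V ^ 2) := by
          have : ((5 / 2) ^ 2 + c ^ 2) / V ^ 2 - y ^ 2 / (2 * V ^ 2) =
              ((5 / 2) ^ 2 + c ^ 2 - y ^ 2 / 2) / V ^ 2 := by field_simp
          rw [this]
          refine div_le_div_of_nonneg_right ?_ hV2.le
          linarith
        have h7 : 4 * |y| ≤ 16 * V ^ 2 + y ^ 2 / (4 * V ^ 2) := by
          have h8 : 0 ≤ (4 * V - |y| / (2 * V)) ^ 2 := sq_nonneg _
          have h9 : (4 * V - |y| / (2 * V)) ^ 2 = 16 * V ^ 2 - 4 * |y| + y ^ 2 / (4 * V ^ 2) := by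
            rw [← sq_abs y]
            field_simp
            ring
          linarith
        have h10 : y ^ 2 / (2 * V ^ 2) = 2 * (y ^ 2 / (4 * V ^ 2)) := by field_simp; ring
        have h11 : -(1 / (4 * V ^ 2)) * y ^ 2 = -(y ^ 2 / (4 * V ^ 2)) := by ring
        rw [h11]
        linarith
    _ = _ := by rw [Real.exp_add, ← mul_assoc]

/-- an entire function which vanishes on a vertical line is zero -/
theorem eq_zero_of_line (hF : Differentiable ℂ F) {x : ℝ} (h : ∀ y : ℝ, F (x + y * I) = 0) :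
    F = 0 := by
  have h1 : AnalyticOnNhd ℂ F univ := fun z _ => hF.analyticAt z
  refine AnalyticOnNhd.eq_of_frequently_eq (z₀ := (x : ℂ)) h1
    (fun z _ => analyticAt_const) ?_
  have h2 : Tendsto (fun n : ℕ => (x : ℂ) + ((1 / ((n : ℝ) + 1) : ℝ) : ℂ) * I) atTop (𝓝[≠] (x : ℂ)) := by
    rw [tendsto_nhdsWithin_iff]
    constructor
    · have h3 : Tendsto (fun n : ℕ => ((1 / ((n : ℝ) + 1) : ℝ) : ℂ)) atTop (𝓝 ((0 : ℝ) : ℂ)) :=
        (continuous_ofReal.tendsto 0).comp tendsto_one_div_add_atTop_nhds_zero_nat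
      have h4 := (tendsto_const_nhds (x := (x : ℂ))).add (h3.mul_const I)
      simpa using h4
    · refine Eventually.of_forall fun n => ?_
      simp only [mem_compl_iff, mem_singleton_iff]
      intro h5
      have h6 := congrArg Complex.im h5
      simp at h6
      have h7 : (0 : ℝ) < (n : ℝ) + 1 := by positivity
      rcases h6 with h6 | h6 <;> exact h7.ne' (by exact_mod_cast h6)
  exact h2.frequently (Frequently.of_forall fun n => h _)

theorem LI_pos (hF : Differentiable ℂ F) (hne : F ≠ 0) {A V c x : ℝ} (hA : 0 ≤ A) (hV : 0 < V)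
    (hb : ∀ s : ℂ, 1 / 2 ≤ s.re → s.re ≤ 3 → ‖F s‖ ≤ A * (1 + |s.im|) ^ 4) (h1 : 1 / 2 ≤ x)
    (h2 : x ≤ 3) : 0 < LI (G F V c) 2 x := by
  obtain ⟨y, hy⟩ : ∃ y : ℝ, F (x + y * I) ≠ 0 := by
    by_contra hcon
    push Not at hcon
    exact hne (eq_zero_of_line hF hcon)
  have hc := li_cont (G_diff hF V c) (β := 2) (by norm_num) x
  have hi := li_int (G_diff hF V c) (β := 2) (by norm_num) (G_gd hA hV hb) h1 h2
  unfold LI
  rw [integral_pos_iff_support_of_nonneg (fun y => by positivity) hi]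
  refine IsOpen.measure_pos volume hc.isOpen_support ⟨y, ?_⟩
  rw [Function.mem_support]
  have h3 : ‖G F V c (x + y * I)‖ ≠ 0 := by
    rw [G_norm F c hV.ne']
    exact mul_ne_zero (norm_ne_zero_iff.2 hy) (Real.exp_pos _).ne'
  exact (Real.rpow_pos_of_pos (lt_of_le_of_ne (norm_nonneg _) h3.symm) _).ne'

/-- the sum of the Gaussian weights is bounded -/
theorem weights : ∃ K : ℝ, 0 < K ∧ ∀ (J : ℕ) (u : ℝ),
    ∑ j ∈ Finset.range J, Real.exp (-(2 * (u - j) ^ 2)) ≤ K := by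
  have hs : Summable (fun k : ℤ => Real.exp (-(2 * |(k : ℝ)|))) := by
    have h1 : Summable (fun n : ℕ => Real.exp (-(2 * (n : ℝ)))) := by
      have h2 : Summable (fun n : ℕ => (Real.exp (-2)) ^ n) :=
        summable_geometric_of_lt_one (Real.exp_pos _).le (by
          rw [Real.exp_lt_one_iff]
          norm_num)
      refine h2.congr fun n => ?_
      rw [← Real.exp_nat_mul]
      congr 1
      ring
    refine Summable.of_nat_of_neg ?_ ?_
    · refine h1.congr fun n => ?_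
      simp
    · refine h1.congr fun n => ?_
      simp
  have hpos : 0 < ∑' k : ℤ, Real.exp (-(2 * |(k : ℝ)|)) :=
    hs.tsum_pos (fun k => (Real.exp_pos _).le) 0 (Real.exp_pos _)
  refine ⟨Real.exp (3 / 2) * ∑' k : ℤ, Real.exp (-(2 * |(k : ℝ)|)), by positivity,
    fun J u => ?_⟩
  have h3 : ∀ j ∈ Finset.range J, Real.exp (-(2 * (u - j) ^ 2)) ≤
      Real.exp (3 / 2) * Real.exp (-(2 * |(((j : ℤ) - round u : ℤ) : ℝ)|)) := by
    intro j _
    rw [← Real.exp_add, Real.exp_le_exp]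
    have h4 := abs_sub_round u
    have h5 : |(((j : ℤ) - round u : ℤ) : ℝ)| ≤ |u - j| + 1 / 2 := by
      have h6 : (((j : ℤ) - round u : ℤ) : ℝ) = -(u - j) + (u - round u) := by push_cast; ring
      rw [h6]
      refine (abs_add_le _ _).trans ?_
      rw [abs_neg]
      linarith
    have h7 : (u - j) ^ 2 = |u - j| ^ 2 := (sq_abs _).symm
    rw [h7]
    nlinarith [sq_nonneg (|u - j| - 1 / 2), abs_nonneg (u - j)]
  refine (Finset.sum_le_sum h3).trans ?_
  rw [← Finset.mul_sum]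
  refine mul_le_mul_of_nonneg_left ?_ (Real.exp_pos _).le
  let e : ℕ ↪ ℤ := ⟨fun j => (j : ℤ) - round u, fun a b hab => by
    have : (a : ℤ) = b := by linarith [hab]
    exact_mod_cast this⟩
  have h8 : ∑ j ∈ Finset.range J, Real.exp (-(2 * |(((j : ℤ) - round u : ℤ) : ℝ)|)) =
      ∑ k ∈ (Finset.range J).map e, Real.exp (-(2 * |(k : ℝ)|)) := by
    rw [Finset.sum_map]
    rfl
  rw [h8]
  exact hs.sum_le_tsum _ fun k _ => (Real.exp_pos _).le

/-- Hölder's inequality for finite sums -/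
theorem holder {ι : Type} (s : Finset ι) {a b : ι → ℝ} (ha : ∀ i ∈ s, 0 ≤ a i)
    (hb : ∀ i ∈ s, 0 ≤ b i) {Sa Sb θ : ℝ} (hSa : ∑ i ∈ s, a i ≤ Sa) (hSb : ∑ i ∈ s, b i ≤ Sb)
    (h0a : 0 < Sa) (h0b : 0 < Sb) (h1 : 0 ≤ θ) (h2 : θ ≤ 1) :
    ∑ i ∈ s, a i ^ (1 - θ) * b i ^ θ ≤ Sa ^ (1 - θ) * Sb ^ θ := by
  have hp : 0 < Sa ^ (1 - θ) * Sb ^ θ := by positivity
  rw [← div_le_one hp, Finset.sum_div]
  have h3 : ∀ i ∈ s, a i ^ (1 - θ) * b i ^ θ / (Sa ^ (1 - θ) * Sb ^ θ) ≤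
      (1 - θ) * (a i / Sa) + θ * (b i / Sb) := by
    intro i hi
    have h4 := Real.geom_mean_le_arith_mean2_weighted (w₁ := 1 - θ) (w₂ := θ) (p₁ := a i / Sa)
      (p₂ := b i / Sb) (by linarith) h1 (div_nonneg (ha i hi) h0a.le)
      (div_nonneg (hb i hi) h0b.le) (by ring)
    rw [Real.div_rpow (ha i hi) h0a.le, Real.div_rpow (hb i hi) h0b.le] at h4
    refine le_trans (le_of_eq ?_) h4
    field_simp
  refine (Finset.sum_le_sum h3).trans ?_
  rw [Finset.sum_add_distrib, ← Finset.mul_sum, ← Finset.mul_sum, ← Finset.sum_div,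
    ← Finset.sum_div]
  have h5 : (∑ i ∈ s, a i) / Sa ≤ 1 := (div_le_one h0a).2 hSa
  have h6 : (∑ i ∈ s, b i) / Sb ≤ 1 := (div_le_one h0b).2 hSb
  nlinarith

end

end Pool.Agent.Q277.UM.TL
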